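import Pool.Agent.H50.ODG.Targets

/-!
# GGL: the groups of permutations and the monoids of linear maps
-/

set_option autoImplicit false

namespace Pool.Agent.H67.ODG

open Pool.Agent.H57.CP Pool.Agent.H39.TO Pool.Agent.H39.OD Pool.Agent.H50.ODG

theorem ext_mul (G H : Module.End ℝ V4) (g h : Equiv.Perm H3) (hG : Ext G g) (hH : Ext H h) : Ext (G * H) (g * h) := by
  intro x
  have h1 : (G * H) x.1 = G (H x.1) := rfl
  rw [h1, hH x, hG (h x)]
  rfl

theorem ext_one : Ext (1 : Module.End ℝ V4) (1 : Equiv.Perm H3) := fun _ => rfl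

theorem fwd (hR : T_RFX) (S : Set V4) (hS : ∀ n ∈ S, mk n n = -1) (g : Equiv.Perm H3)
    (hg : g ∈ Subgroup.closure (rf '' S)) :
    ∃ G ∈ Submonoid.closure ((fun n => (Pool.Agent.H57.CP.refl n : Module.End ℝ V4)) '' S), Ext G g := by
  have key : (∃ G ∈ Submonoid.closure ((fun n => (Pool.Agent.H57.CP.refl n : Module.End ℝ V4)) '' S), Ext G g) ∧
      ∃ G ∈ Submonoid.closure ((fun n => (Pool.Agent.H57.CP.refl n : Module.End ℝ V4)) '' S), Ext G g⁻¹ := by
    induction hg using Subgroup.closure_induction with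
    | mem x hx =>
      obtain ⟨n, hn, rfl⟩ := hx
      have h1 := hR n (hS n hn)
      have h2 : (rf n)⁻¹ = rf n := inv_eq_of_mul_eq_one_left h1.2.2.1
      have h3 : Ext (Pool.Agent.H57.CP.refl n) (rf n) := fun x => (h1.1 x).symm
      rw [h2]
      exact ⟨⟨_, Submonoid.subset_closure ⟨n, hn, rfl⟩, h3⟩, ⟨_, Submonoid.subset_closure ⟨n, hn, rfl⟩, h3⟩⟩
    | one =>
      rw [inv_one]
      exact ⟨⟨1, Submonoid.one_mem _, ext_one⟩, ⟨1, Submonoid.one_mem _, ext_one⟩⟩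
    | mul x y _ _ hx hy =>
      obtain ⟨⟨A, hA, eA⟩, ⟨A', hA', eA'⟩⟩ := hx
      obtain ⟨⟨B, hB, eB⟩, ⟨B', hB', eB'⟩⟩ := hy
      refine ⟨⟨A * B, Submonoid.mul_mem _ hA hB, ext_mul A B x y eA eB⟩, ⟨B' * A', Submonoid.mul_mem _ hB' hA', ?_⟩⟩
      rw [mul_inv_rev]
      exact ext_mul B' A' y⁻¹ x⁻¹ eB' eA'
    | inv x _ hx =>
      rw [inv_inv]
      exact ⟨hx.2, hx.1⟩
  exact key.1

theorem bwd (hR : T_RFX) (S : Set V4) (hS : ∀ n ∈ S, mk n n = -1) (G : Module.End ℝ V4)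
    (hG : G ∈ Submonoid.closure ((fun n => (Pool.Agent.H57.CP.refl n : Module.End ℝ V4)) '' S)) :
    ∃ g ∈ Subgroup.closure (rf '' S), Ext G g := by
  induction hG using Submonoid.closure_induction with
  | mem x hx =>
    obtain ⟨n, hn, rfl⟩ := hx
    exact ⟨rf n, Subgroup.subset_closure ⟨n, hn, rfl⟩, fun x => ((hR n (hS n hn)).1 x).symm⟩
  | one => exact ⟨1, Subgroup.one_mem _, ext_one⟩
  | mul A B _ _ hA hB =>
    obtain ⟨a, ha, ea⟩ := hA
    obtain ⟨b, hb, eb⟩ := hB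
    exact ⟨a * b, Subgroup.mul_mem _ ha hb, ext_mul A B a b ea eb⟩

theorem pf_GGL (hRFX : T_RFX) : T_GGL := by
  intro n0 n1 n2 h0 h1 h2
  have hS : ∀ n ∈ ({n0, n1, n2} : Set V4), mk n n = -1 := by
    rintro n (rfl | rfl | rfl)
    · exact h0
    · exact h1
    · exact h2
  have hT : ∀ n ∈ ({n0, n1} : Set V4), mk n n = -1 := by
    rintro n (rfl | rfl)
    · exact h0
    · exact h1
  have e1 : rf '' ({n0, n1, n2} : Set V4) = {rf n0, rf n1, rf n2} := by
    rw [Set.image_insert_eq, Set.image_insert_eq, Set.image_singleton]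
  have e2 : rf '' ({n0, n1} : Set V4) = {rf n0, rf n1} := by
    rw [Set.image_insert_eq, Set.image_singleton]
  have e3 : (fun n => (Pool.Agent.H57.CP.refl n : Module.End ℝ V4)) '' ({n0, n1, n2} : Set V4) =
      {Pool.Agent.H57.CP.refl n0, Pool.Agent.H57.CP.refl n1, Pool.Agent.H57.CP.refl n2} := by
    rw [Set.image_insert_eq, Set.image_insert_eq, Set.image_singleton]
  have e4 : (fun n => (Pool.Agent.H57.CP.refl n : Module.End ℝ V4)) '' ({n0, n1} : Set V4) =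
      {Pool.Agent.H57.CP.refl n0, Pool.Agent.H57.CP.refl n1} := by
    rw [Set.image_insert_eq, Set.image_singleton]
  refine ⟨?_, ?_, ?_, ?_⟩
  · intro g hg
    have hg' : g ∈ Subgroup.closure (rf '' ({n0, n1, n2} : Set V4)) := by rw [e1]; exact hg
    obtain ⟨G, hG, e⟩ := fwd hRFX _ hS g hg'
    rw [e3] at hG
    exact ⟨G, hG, e⟩
  · intro G hG
    have hG' : G ∈ Submonoid.closure ((fun n => (Pool.Agent.H57.CP.refl n : Module.End ℝ V4)) ''
        ({n0, n1, n2} : Set V4)) := by rw [e3]; exact hG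
    obtain ⟨g, hg, e⟩ := bwd hRFX _ hS G hG'
    rw [e1] at hg
    exact ⟨g, hg, e⟩
  · intro g hg
    rw [← e2] at hg
    obtain ⟨G, hG, e⟩ := fwd hRFX _ hT g hg
    rw [e4] at hG
    exact ⟨G, hG, e⟩
  · intro G hG
    have hG' : G ∈ Submonoid.closure ((fun n => (Pool.Agent.H57.CP.refl n : Module.End ℝ V4)) ''
        ({n0, n1} : Set V4)) := by rw [e4]; exact hG
    obtain ⟨g, hg, e⟩ := bwd hRFX _ hT G hG'
    rw [e2] at hg
    exact ⟨g, hg, e⟩

end Pool.Agent.H67.ODG
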