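import Pool.Agent.H50.ODG.Targets

/-!
# MTA: the angles of a triangle of mirrors
-/

set_option autoImplicit false

namespace Pool.Agent.H67.ODG

open Pool.Agent.H57.CP Pool.Agent.H39.TO Pool.Agent.H39.OD Pool.Agent.H50.ODG

theorem mkc (a b : V4) : mk a b = mk b a := by simp only [mk]; ring

theorem refl_apply' (a x : V4) : Pool.Agent.H57.CP.refl a x = x + (2 * mk a x) • a := by
  funext i
  show x i + 2 * mk a x * a i = x i + (2 * mk a x) * a i
  rfl

theorem refl_refl (a x : V4) (ha : mk a a = -1) :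
    Pool.Agent.H57.CP.refl a (Pool.Agent.H57.CP.refl a x) = x := by
  have h1 : mk a (Pool.Agent.H57.CP.refl a x) = -mk a x := by
    rw [refl_apply']
    have h2 : mk a (x + (2 * mk a x) • a) = mk a x + 2 * mk a x * mk a a := by
      simp only [mk, Pi.add_apply, Pi.smul_apply, smul_eq_mul]; ring
    rw [h2, ha]; ring
  rw [refl_apply' a (Pool.Agent.H57.CP.refl a x), h1, refl_apply' a x]
  funext i
  simp only [Pi.add_apply, Pi.smul_apply, smul_eq_mul]; ring

theorem refl_mul_self (a : V4) (ha : mk a a = -1) :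
    (Pool.Agent.H57.CP.refl a : Module.End ℝ V4) * Pool.Agent.H57.CP.refl a = 1 := by
  apply LinearMap.ext
  intro x
  exact refl_refl a x ha

theorem pf_MTA (hANG : T_ANG) : T_MTA := by
  intro G x y z P Q R hP h
  have hli : LinearIndependent ℝ ![x, y] := by
    rw [LinearIndependent.pair_iff]
    intro s t hst
    have h1 : mk Q.1 (s • x + t • y) = s * mk Q.1 x + t * mk Q.1 y := by
      simp only [mk, Pi.add_apply, Pi.smul_apply, smul_eq_mul]; ring
    have h2 : mk R.1 (s • x + t • y) = s * mk R.1 x + t * mk R.1 y := by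
      simp only [mk, Pi.add_apply, Pi.smul_apply, smul_eq_mul]; ring
    have h3 : ∀ w : V4, mk w 0 = 0 := by intro w; simp [mk]
    rw [hst, h3, h.Qx, mul_zero, zero_add] at h1
    rw [hst, h3, h.Ry, mul_zero, add_zero] at h2
    constructor
    · rcases mul_eq_zero.1 h2.symm with h4 | h4
      · exact h4
      · exact absurd h4 (ne_of_lt h.Rx)
    · rcases mul_eq_zero.1 h1.symm with h4 | h4
      · exact h4
      · exact absurd h4 (ne_of_lt h.Qy)
  set X : Module.End ℝ V4 := Pool.Agent.H57.CP.refl x with hX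
  set Y : Module.End ℝ V4 := Pool.Agent.H57.CP.refl y with hY
  have hXX : X * X = 1 := refl_mul_self x h.ux
  have hYY : Y * Y = 1 := refl_mul_self y h.uy
  set g : Module.End ℝ V4 := X * Y with hg
  set u : (Module.End ℝ V4)ˣ := ⟨X * Y, Y * X, by
    rw [mul_assoc, ← mul_assoc Y Y X, hYY, one_mul, hXX], by
    rw [mul_assoc, ← mul_assoc X X Y, hXX, one_mul, hYY]⟩ with hu
  have hug : ∀ k : ℕ, ((u ^ k : (Module.End ℝ V4)ˣ) : Module.End ℝ V4) = g ^ k := by
    intro k
    rw [Units.val_pow_eq_pow_val]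
  have hgP : ∀ k : ℕ, (g ^ k) P.1 = P.1 := by
    have hx : X P.1 = P.1 := by
      rw [hX, refl_apply', mkc, h.Px]; simp
    have hy : Y P.1 = P.1 := by
      rw [hY, refl_apply', mkc, h.Py]; simp
    have h1 : g P.1 = P.1 := by
      show X (Y P.1) = P.1
      rw [hy, hx]
    intro k
    induction k with
    | zero => rfl
    | succ k ih =>
      rw [pow_succ]
      show (g ^ k) (g P.1) = P.1
      rw [h1, ih]
  have hgG : ∀ k : ℕ, g ^ k ∈ G := fun k => Submonoid.pow_mem _ (Submonoid.mul_mem _ h.gx h.gy) k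
  obtain ⟨i, j, hij, he⟩ := Set.Finite.exists_lt_map_eq_of_forall_mem (f := fun k : ℕ => g ^ k)
    (t := {g | g ∈ G ∧ mk P.1 (g P.1) ≤ 1}) (by
      intro k
      refine ⟨hgG k, ?_⟩
      show mk P.1 ((g ^ k) P.1) ≤ 1
      rw [hgP k]
      exact le_of_eq P.2.1) (hP P 1)
  have hfin : IsOfFinOrder u := by
    rw [isOfFinOrder_iff_pow_eq_one]
    refine ⟨j - i, Nat.sub_pos_of_lt hij, ?_⟩
    have h1 : u ^ i = u ^ j := by
      apply Units.ext
      rw [hug, hug]
      exact he
    have h2 : u ^ j = u ^ i * u ^ (j - i) := by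
      rw [← pow_add, Nat.add_sub_cancel' hij.le]
    rw [h2] at h1
    exact (mul_eq_left.1 h1.symm)
  have hN : ∀ m : ℕ, (Pool.Agent.H57.CP.refl x * Pool.Agent.H57.CP.refl y : Module.End ℝ V4) ^ m = 1 ↔
      orderOf u ∣ m := by
    intro m
    rw [orderOf_dvd_iff_pow_eq_one]
    constructor
    · intro hm
      apply Units.ext
      rw [hug]
      exact hm
    · intro hm
      have := congrArg (fun w : (Module.End ℝ V4)ˣ => (w : Module.End ℝ V4)) hm
      rw [← hug m]
      exact this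
  have hpos : 0 < orderOf u := hfin.orderOf_pos
  have hne : orderOf u ≠ 1 := by
    intro h1
    have h2 := (hN 1).2 (by rw [h1])
    rw [pow_one] at h2
    have h3 : Pool.Agent.H57.CP.refl x (Pool.Agent.H57.CP.refl y Q.1) = Q.1 := LinearMap.congr_fun h2 Q.1
    rw [refl_apply' x, refl_apply' y] at h3
    have h4 : (2 * mk x (Q.1 + (2 * mk y Q.1) • y)) • x + (2 * mk y Q.1) • y = 0 := by
      have h5 := sub_eq_zero.2 h3
      rw [← h5]
      abel
    have h6 := (LinearIndependent.pair_iff.1 hli) _ _ h4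
    have h7 : mk y Q.1 = 0 := by linarith [h6.2]
    rw [mkc] at h7
    exact absurd h7 (ne_of_lt h.Qy)
  obtain ⟨k, hk0, hkN, -, hk⟩ := hANG x y (orderOf u) h.ux h.uy (by omega) hli hN
  refine ⟨(k : ℚ) / (orderOf u : ℕ), ?_, ?_, ?_⟩
  · have : (0 : ℚ) < k := by exact_mod_cast hk0
    have h2 : (0 : ℚ) < (orderOf u : ℕ) := by exact_mod_cast hpos
    positivity
  · have h2 : (0 : ℚ) < (orderOf u : ℕ) := by exact_mod_cast hpos
    rw [div_lt_one h2]
    exact_mod_cast hkN
  · rw [hk, cn]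
    have h1 : (((k : ℚ) / (orderOf u : ℕ) : ℚ) : ℝ) * Real.pi = k * Real.pi / (orderOf u : ℕ) := by
      push_cast
      ring
    rw [h1]

end Pool.Agent.H67.ODG
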