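import Pool.Agent.H50.ODG.Targets

/-!
# MTY: permutations of the sides of a triangle of mirrors
-/

set_option autoImplicit false

namespace Pool.Agent.H67.ODG

open Pool.Agent.H57.CP Pool.Agent.H39.TO Pool.Agent.H39.OD Pool.Agent.H50.ODG

theorem pf_MTY : T_MTY := by
  intro G x y z P Q R h
  refine ⟨⟨h.uy, h.ux, h.uz, h.gy, h.gx, h.gz, h.Py, h.Px, h.Pz, h.Ry, h.Rz, h.Rx, h.Qx, h.Qz, h.Qy, ?_⟩,
    ⟨h.ux, h.uz, h.uy, h.gx, h.gz, h.gy, h.Qx, h.Qz, h.Qy, h.Px, h.Py, h.Pz, h.Rz, h.Ry, h.Rx, ?_⟩⟩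
  · rintro ⟨O, h1, h2, h3⟩
    exact h.ns ⟨O, h2, h1, h3⟩
  · rintro ⟨O, h1, h2, h3⟩
    exact h.ns ⟨O, h1, h3, h2⟩

end Pool.Agent.H67.ODG
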